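import Pool.Agent.helper32.PN.Spec

/-! Row DEC of PN: decomposition of the sum over the states. -/

set_option autoImplicit false

namespace Pool.Agent.PN

open Module Polynomial Pool.Agent.helper27.PC

noncomputable section

theorem DEC_mem_ext (K m : ℕ) (T : St) (s : Bool) (p : ℕ) (hp : p < m - K) : (s, p) ∈ ext K m T := by
  unfold ext
  rw [Finset.mem_union]
  left
  rw [Finset.mem_product]
  exact ⟨Finset.mem_univ _, Finset.mem_range.2 hp⟩

theorem DEC_not_mem_emb (s : Bool) (K m h : ℕ) (T : St) : (s, h) ∉ emb s K m h T := by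
  unfold emb
  exact Finset.notMem_erase _ _

theorem DEC_mem_emb (s : Bool) (K m h : ℕ) (T : St) (u : Bool) (p : ℕ) (hp : p < m - K) (hne : (u, p) ≠ (s, h)) :
    (u, p) ∈ emb s K m h T := by
  unfold emb
  exact Finset.mem_erase.2 ⟨hne, DEC_mem_ext K m T u p hp⟩

theorem DEC_insert_emb (s : Bool) (K m h : ℕ) (T : St) (hp : h < m - K) :
    insert (s, h) (emb s K m h T) = ext K m T := by
  unfold emb
  exact Finset.insert_erase (DEC_mem_ext K m T s h hp)

theorem DEC (hPFU : PFU_stmt) (hEXTI : EXTI_stmt) (hPHI : PHI_stmt) : DEC_stmt := by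
  intro J0 K n hJK hKn Φ
  rw [← Finset.sum_filter_add_sum_filter_not (ends n (vac n))
    (fun S => ∀ (s : Bool) (p : ℕ), p ≤ J0 → (s, p) ∈ S) Φ]
  congr 1
  have h1 : ∑ s : Bool, ∑ j ∈ Finset.range (J0 + 1), ∑ T ∈ ends j (base s K), Φ (emb s K n j T) =
      ∑ x ∈ (Finset.univ : Finset Bool).sigma (fun s => (Finset.range (J0 + 1)).sigma (fun j => ends j (base s K))),
        Φ (emb x.1 K n x.2.1 x.2.2) := by
    rw [Finset.sum_sigma]
    refine Finset.sum_congr rfl fun s _ => ?_
    rw [Finset.sum_sigma]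
  rw [h1]
  symm
  apply Finset.sum_nbij (fun x => emb x.1 K n x.2.1 x.2.2)
  · rintro ⟨s, j, T⟩ hx
    simp only [Finset.mem_sigma, Finset.mem_univ, true_and, Finset.mem_range] at hx
    rw [Finset.mem_filter]
    have h2 := (hPHI s K n j j T (by omega) (by omega) hx.2).1
    rw [show n - j + j = n by omega] at h2
    refine ⟨h2, ?_⟩
    intro h3
    exact DEC_not_mem_emb s K n j T (h3 s j (by omega))
  · rintro ⟨s, j, T⟩ hx ⟨s', j', T'⟩ hx' heq
    simp only [Finset.coe_sigma, Set.mem_sigma_iff, Finset.mem_coe, Finset.mem_univ, true_and,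
      Finset.mem_range] at hx hx'
    simp only at heq
    have h2 : (s, j) = (s', j') := by
      by_contra hne
      have h3 := DEC_not_mem_emb s K n j T
      rw [heq] at h3
      exact h3 (DEC_mem_emb s' K n j' T' s j (by omega) hne)
    obtain ⟨rfl, rfl⟩ := Prod.mk.injEq .. ▸ h2
    have h3 : ext K n T = ext K n T' := by
      rw [← DEC_insert_emb s K n j T (by omega), ← DEC_insert_emb s K n j T' (by omega), heq]
    have h4 := (hEXTI s K n j (by omega) (by omega)).2.2 T T' h3
    rw [h4]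
  · intro S hS
    simp only [Finset.coe_filter, Set.mem_ofPred_eq] at hS
    obtain ⟨hS1, hS2⟩ := hS
    push Not at hS2
    obtain ⟨s, p, hp, hps⟩ := hS2
    classical
    have hex : ∃ p, (s, p) ∉ S := ⟨p, hps⟩
    set h := Nat.find hex with hh
    have h2 : (s, h) ∉ S := Nat.find_spec hex
    have h3 : h ≤ J0 := (Nat.find_min' hex hps).trans hp
    have h4 : ∀ p < h, (s, p) ∈ S := fun p hp => not_not.1 (Nat.find_min hex hp)
    obtain ⟨-, -, h5, -⟩ := hPFU s n n h S hS1 h2 h4
    rw [show n + h - n = h by omega] at h5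
    obtain ⟨T, hT, hT2⟩ := (hEXTI s K n h (by omega) (by omega)).2.1 _ h5
    refine ⟨⟨s, h, T⟩, ?_, ?_⟩
    · simp only [Finset.coe_sigma, Set.mem_sigma_iff, Finset.mem_coe, Finset.mem_univ, true_and,
        Finset.mem_range]
      exact ⟨by omega, hT⟩
    · simp only
      unfold emb
      rw [hT2, Finset.erase_insert h2]
  · intro x _
    rfl

end

end Pool.Agent.PN
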